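import Pool.Agent.Helper70.RT.Sheet

/-! RT row RDEG: the resultant as a polynomial over `ZMod q`. -/

set_option autoImplicit false

namespace Pool.Helper70.RT

open Polynomial

namespace S2

section
variable {A B : Type*} [CommRing A] [CommRing B]

theorem map_fI (ψ : A →+* B) (U V t : A) : ψ (fI U V t) = fI (ψ U) (ψ V) (ψ t) := by
  simp only [fI, q4, q3, q2, q1, q0, e2, e3, g0, h3, h2, h1, h0, map_add, map_sub, map_mul,
    map_pow, map_neg, map_ofNat]

theorem map_fJ (ψ : A →+* B) (U V t : A) : ψ (fJ U V t) = fJ (ψ U) (ψ V) (ψ t) := by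
  simp only [fJ, q4, q3, q2, q1, q0, e2, e3, g0, h3, h2, h1, h0, map_add, map_sub, map_mul,
    map_pow, map_neg, map_ofNat]

theorem map_pI (φ : A →+* B) (U V : A) : (pI U V).map φ = pI (φ U) (φ V) := by
  have h := map_fI (mapRingHom φ) (C U) (C V) X
  rw [coe_mapRingHom, map_C, map_C, map_X] at h
  exact h

theorem map_pJ (φ : A →+* B) (U V : A) : (pJ U V).map φ = pJ (φ U) (φ V) := by
  have h := map_fJ (mapRingHom φ) (C U) (C V) X
  rw [coe_mapRingHom, map_C, map_C, map_X] at h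
  exact h

theorem map_syl (φ : A →+* B) (P Q : A[X]) :
    φ.mapMatrix (syl P Q) = syl (P.map φ) (Q.map φ) := by
  ext i j
  simp only [syl, RingHom.mapMatrix_apply, Matrix.map_apply, Matrix.of_apply, coeff_map]
  split_ifs <;> simp

theorem map_Ru (φ : A →+* B) (U V : A) : φ (Ru U V) = Ru (φ U) (φ V) := by
  rw [Ru, Ru, RingHom.map_det, map_syl, map_pI, map_pJ]
end

section
variable {q : ℕ}

/-- all coefficients have total degree at most `d` -/
def TD (d : ℕ) (p : (MvPolynomial (Fin 2) (ZMod q))[X]) : Prop :=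
  ∀ i, (p.coeff i).totalDegree ≤ d

variable {a b : ℕ} {p r : (MvPolynomial (Fin 2) (ZMod q))[X]}

theorem TD.mono (h : TD a p) (hab : a ≤ b) : TD b p := fun i => (h i).trans hab

theorem TD.add (hp : TD a p) (hr : TD b r) : TD (max a b) (p + r) := fun i => by
  rw [coeff_add]
  exact (MvPolynomial.totalDegree_add _ _).trans (max_le_max (hp i) (hr i))

theorem TD.neg (hp : TD a p) : TD a (-p) := fun i => by
  rw [coeff_neg, MvPolynomial.totalDegree_neg]
  exact hp i

theorem TD.sub (hp : TD a p) (hr : TD b r) : TD (max a b) (p - r) := by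
  rw [sub_eq_add_neg]
  exact hp.add hr.neg

theorem TD.mul (hp : TD a p) (hr : TD b r) : TD (a + b) (p * r) := fun i => by
  rw [coeff_mul]
  refine (MvPolynomial.totalDegree_finsetSum _ _).trans (Finset.sup_le fun x _ => ?_)
  exact (MvPolynomial.totalDegree_mul _ _).trans (add_le_add (hp _) (hr _))

theorem TD_C (c : MvPolynomial (Fin 2) (ZMod q)) : TD c.totalDegree (C c) := fun i => by
  rw [coeff_C]
  split_ifs
  · exact le_rfl
  · rw [MvPolynomial.totalDegree_zero]
    exact Nat.zero_le _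

theorem TD_one : TD 0 (1 : (MvPolynomial (Fin 2) (ZMod q))[X]) := by
  have h := TD_C (1 : MvPolynomial (Fin 2) (ZMod q))
  rw [MvPolynomial.totalDegree_one, C_1] at h
  exact h

theorem TD.pow (hp : TD a p) (k : ℕ) : TD (k * a) (p ^ k) := by
  induction k with
  | zero =>
    rw [pow_zero, zero_mul]
    exact TD_one
  | succ k ih =>
    rw [pow_succ, add_mul, one_mul]
    exact ih.mul hp

theorem TD_num (n : ℕ) [n.AtLeastTwo] :
    TD 0 (OfNat.ofNat n : (MvPolynomial (Fin 2) (ZMod q))[X]) := by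
  have h := TD_C (MvPolynomial.C (n : ZMod q) : MvPolynomial (Fin 2) (ZMod q))
  rw [MvPolynomial.totalDegree_C] at h
  have h2 : (OfNat.ofNat n : (MvPolynomial (Fin 2) (ZMod q))[X]) =
      C (MvPolynomial.C (n : ZMod q)) := by
    rw [map_natCast, map_natCast]
    rfl
  rw [h2]
  exact h

theorem TD_X : TD 0 (X : (MvPolynomial (Fin 2) (ZMod q))[X]) := fun i => by
  rw [coeff_X]
  split_ifs
  · rw [MvPolynomial.totalDegree_one]
  · rw [MvPolynomial.totalDegree_zero]

theorem TD_mv (i : Fin 2) :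
    TD 1 (C (MvPolynomial.X i) : (MvPolynomial (Fin 2) (ZMod q))[X]) := by
  refine (TD_C _).mono ?_
  rcases subsingleton_or_nontrivial (ZMod q) with h | h
  · rw [Subsingleton.elim (MvPolynomial.X i : MvPolynomial (Fin 2) (ZMod q)) 0,
      MvPolynomial.totalDegree_zero]
    exact Nat.zero_le _
  · rw [MvPolynomial.totalDegree_X]

/-- the variables -/
noncomputable abbrev UU (q : ℕ) : (MvPolynomial (Fin 2) (ZMod q))[X] := C (MvPolynomial.X 0)
noncomputable abbrev VV (q : ℕ) : (MvPolynomial (Fin 2) (ZMod q))[X] := C (MvPolynomial.X 1)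

theorem d_e2 : TD 2 (e2 (UU q) (VV q)) := by
  unfold e2
  exact TD.mono
    ((((TD_num 366).neg.mul ((TD_mv 0).pow 2)).add (((TD_num 12).mul (TD_mv 0)).mul (TD_mv
    1))).sub ((TD_num 5340).mul ((TD_mv 1).pow 2))) (by decide)

theorem d_e3 : TD 3 (e3 (UU q) (VV q)) := by
  unfold e3
  exact TD.mono
    (((((TD_num 300).mul ((TD_mv 0).pow 3)).sub (((TD_num 136).mul ((TD_mv 0).pow 2)).mul
    (TD_mv 1))).add (((TD_num 17464).mul (TD_mv 0)).mul ((TD_mv 1).pow 2))).add ((TD_num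
    127392).mul ((TD_mv 1).pow 3))) (by decide)

theorem d_g0 : TD 4 (g0 (UU q) (VV q)) := by
  unfold g0
  exact TD.mono
    ((((((TD_num 3600).neg.mul ((TD_mv 0).pow 4)).add (((TD_num 40260).mul ((TD_mv 0).pow
    3)).mul (TD_mv 1))).sub (((TD_num 91374).mul ((TD_mv 0).pow 2)).mul ((TD_mv 1).pow
    2))).sub (((TD_num 203652).mul (TD_mv 0)).mul ((TD_mv 1).pow 3))).sub ((TD_num
    788694).mul ((TD_mv 1).pow 4))) (by decide)

theorem d_h3 : TD 5 (h3 (UU q) (VV q)) := by
  unfold h3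
  exact TD.mono
    (((((((TD_num 101760).neg.mul ((TD_mv 0).pow 5)).sub (((TD_num 3510784).mul ((TD_mv
    0).pow 4)).mul (TD_mv 1))).add (((TD_num 34030688).mul ((TD_mv 0).pow 3)).mul ((TD_mv
    1).pow 2))).add (((TD_num 79008256).mul ((TD_mv 0).pow 2)).mul ((TD_mv 1).pow 3))).sub
    (((TD_num 170956928).mul (TD_mv 0)).mul ((TD_mv 1).pow 4))).add ((TD_num 67619328).mul
    ((TD_mv 1).pow 5))) (by decide)

theorem d_h2 : TD 6 (h2 (UU q) (VV q)) := by
  unfold h2
  exact TD.mono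
    ((((((((TD_num 4535296).mul ((TD_mv 0).pow 6)).sub (((TD_num 50624256).mul ((TD_mv
    0).pow 5)).mul (TD_mv 1))).add (((TD_num 129233472).mul ((TD_mv 0).pow 4)).mul ((TD_mv
    1).pow 2))).add (((TD_num 1707932096).mul ((TD_mv 0).pow 3)).mul ((TD_mv 1).pow
    3))).add (((TD_num 5598163008).mul ((TD_mv 0).pow 2)).mul ((TD_mv 1).pow 4))).sub
    (((TD_num 11334617088).mul (TD_mv 0)).mul ((TD_mv 1).pow 5))).add ((TD_num
    4694354176).mul ((TD_mv 1).pow 6))) (by decide)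

theorem d_h1 : TD 7 (h1 (UU q) (VV q)) := by
  unfold h1
  exact TD.mono
    (((((((((TD_num 5784960).mul ((TD_mv 0).pow 7)).sub (((TD_num 26871424).mul ((TD_mv
    0).pow 6)).mul (TD_mv 1))).sub (((TD_num 893176416).mul ((TD_mv 0).pow 5)).mul ((TD_mv
    1).pow 2))).add (((TD_num 314499616).mul ((TD_mv 0).pow 4)).mul ((TD_mv 1).pow
    3))).add (((TD_num 46173836384).mul ((TD_mv 0).pow 3)).mul ((TD_mv 1).pow 4))).add
    (((TD_num 106997185152).mul ((TD_mv 0).pow 2)).mul ((TD_mv 1).pow 5))).sub (((TD_num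
    237460178048).mul (TD_mv 0)).mul ((TD_mv 1).pow 6))).add ((TD_num 103693595136).mul
    ((TD_mv 1).pow 7))) (by decide)

theorem d_h0 : TD 8 (h0 (UU q) (VV q)) := by
  unfold h0
  exact TD.mono
    ((((((((((TD_num 2822400).mul ((TD_mv 0).pow 8)).sub (((TD_num 105198720).mul ((TD_mv
    0).pow 7)).mul (TD_mv 1))).add (((TD_num 2729107264).mul ((TD_mv 0).pow 6)).mul
    ((TD_mv 1).pow 2))).sub (((TD_num 23024181984).mul ((TD_mv 0).pow 5)).mul ((TD_mv
    1).pow 3))).sub (((TD_num 7559713232).mul ((TD_mv 0).pow 4)).mul ((TD_mv 1).pow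
    4))).add (((TD_num 442707061248).mul ((TD_mv 0).pow 3)).mul ((TD_mv 1).pow 5))).add
    (((TD_num 583358372032).mul ((TD_mv 0).pow 2)).mul ((TD_mv 1).pow 6))).sub (((TD_num
    1601906060544).mul (TD_mv 0)).mul ((TD_mv 1).pow 7))).add ((TD_num 740566619136).mul
    ((TD_mv 1).pow 8))) (by decide)

theorem d_q4 : TD 0 (q4 (X : (MvPolynomial (Fin 2) (ZMod q))[X])) := (TD_num 4).mul TD_X

theorem d_q3 : TD 5 (q3 (UU q) (VV q)) := d_h3

theorem d_q2 : TD 6 (q2 (UU q) (VV q) X) := by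
  refine TD.mono ((((TD_num 2).mul d_e2).mul TD_X).add d_h2) (by decide)

theorem d_q1 : TD 7 (q1 (UU q) (VV q) X) := by
  refine TD.mono ((((TD_num 2).neg.mul d_e3).mul TD_X).add d_h1) (by decide)

theorem d_q0 : TD 8 (q0 (UU q) (VV q) X) := by
  refine TD.mono (((TD_X.pow 2).add (((TD_num 2).mul d_g0).mul TD_X)).add d_h0) (by decide)

theorem d_pI : TD 18 (pI (MvPolynomial.X 0 : MvPolynomial (Fin 2) (ZMod q))
    (MvPolynomial.X 1)) := by
  unfold pI fI
  exact TD.mono (((((TD_num 12).mul d_q4).mul d_q0).sub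
    (((TD_num 3).mul d_q3).mul d_q1)).add (d_q2.pow 2)) (by decide)

theorem d_pJ : TD 18 (pJ (MvPolynomial.X 0 : MvPolynomial (Fin 2) (ZMod q))
    (MvPolynomial.X 1)) := by
  unfold pJ fJ
  exact TD.mono (((((((TD_num 72).mul d_q4).mul d_q2).mul d_q0).add
    ((((TD_num 9).mul d_q3).mul d_q2).mul d_q1)).sub
    (((TD_num 27).mul d_q4).mul (d_q1.pow 2))).sub
    (((TD_num 27).mul d_q0).mul (d_q3.pow 2)) |>.sub ((TD_num 2).mul (d_q2.pow 3))) (by decide)

theorem d_det (M : Matrix (Fin 7) (Fin 7) (MvPolynomial (Fin 2) (ZMod q)))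
    (h : ∀ i j, (M i j).totalDegree ≤ 18) : M.det.totalDegree ≤ 126 := by
  rw [Matrix.det_apply]
  refine (MvPolynomial.totalDegree_finsetSum _ _).trans (Finset.sup_le fun σ _ => ?_)
  have h1 : (∏ i, M (σ i) i).totalDegree ≤ 126 := by
    refine (MvPolynomial.totalDegree_finsetProd _ _).trans ?_
    refine (Finset.sum_le_card_nsmul _ _ 18 fun i _ => h _ _).trans ?_
    rw [Finset.card_univ, Fintype.card_fin]
    decide
  rcases Int.units_eq_one_or (Equiv.Perm.sign σ) with h2 | h2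
  · rw [h2, one_smul]
    exact h1
  · rw [h2, Units.neg_smul, one_smul, MvPolynomial.totalDegree_neg]
    exact h1

end

end S2

open S2 in
/-- (RDEG) -/
theorem st_RDEG (h10 : ST_R10) : ST_RDEG := by
  intro q hq hQ
  have : Fact q.Prime := ⟨hq⟩
  have hev : ∀ u : Fin 2 → ZMod q, MvPolynomial.eval u
      (Ru (MvPolynomial.X 0 : MvPolynomial (Fin 2) (ZMod q)) (MvPolynomial.X 1)) =
      Ru (u 0) (u 1) := by
    intro u
    rw [map_Ru, MvPolynomial.eval_X, MvPolynomial.eval_X]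
  refine ⟨Ru (MvPolynomial.X 0) (MvPolynomial.X 1), fun h0 => ?_, ?_, hev⟩
  · have h1 := hev ![1, 0]
    rw [h0, map_zero] at h1
    have h2 : Ru (1 : ZMod q) 0 = 0 := h1.symm
    have h3 := map_Ru (Int.castRingHom (ZMod q)) 1 0
    rw [map_one, map_zero, h2, eq_intCast, ZMod.intCast_zmod_eq_zero_iff_dvd] at h3
    have h4 : q ≤ (Ru (1 : ℤ) 0).natAbs :=
      Nat.le_of_dvd (Int.natAbs_pos.2 h10) (Int.natCast_dvd.1 h3)
    unfold QQ at hQ
    omega
  · refine le_trans (d_det _ fun i j => ?_) (by norm_num)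
    rw [syl, Matrix.of_apply]
    split_ifs
    · exact d_pI _
    · rw [MvPolynomial.totalDegree_zero]
      exact Nat.zero_le _
    · exact d_pJ _
    · rw [MvPolynomial.totalDegree_zero]
      exact Nat.zero_le _

end Pool.Helper70.RT
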